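import Pool.Agent.H2N.TJ.Main

/-!
# Tensor powers and all Artin twists at the same time: few zeros on the edge line

`X` is a smooth projective variety over a number field `K` (in the problem `K = ℚ`), `H = H^i(X)`, of
dimension `N`.  The pairs `(χ_k, τ_k)`, finitely many and different, consist of an irreducible Artin
representation `χ_k` of `K`, of any dimension, and a real number `τ_k`; `s_{r,k} = r i / 2 + 1 + i τ_k` is a
point of the edge line of `L(H^{⊗ r} ⊗ χ_k, s)`; for `K = ℚ`, `χ_k = 1`, `τ_k = 0`, `r = 1` it is the point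
`s_0` of the problem.  Nothing is assumed about the automorphy of `H`.

The earlier results on tensor powers treat one pair `(χ, τ)`.  Here all the pairs are treated together: a
bound `b` for a polynomial on `[-N, N]` bounds the `ℓ²` norm of the vector of the values of the polynomial
at the orders.  So the number of the pairs `(χ, τ)` for which `L(H ⊗ χ, s)` has a zero or a pole of height
`τ` on the edge line is at most `(N / R)²`, if the odd tensor powers up to `R` have none for these pairs.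

The definitions are in `Pool.Agent.H2N.TL.Defs`, `Pool.Agent.W353.AT.Defs`, `Pool.Agent.W353.EH.Defs` and
`Pool.Agent.W353.EF.Defs`: `IsPowerAt X d i N r χ τ B`: the `B v` are the Euler factors of
`L(H^{⊗ r} ⊗ χ, s)` (arbitrary ones, regular at the point of height `τ`, at finitely many primes); `LFun B`:
the Euler product; `HasOrder (r i) τ B k`: it has a meromorphic continuation to a neighbourhood of the
point of height `τ`, of order `k` there; `size (r i) τ B ε`: `log |L(s + ε)| / log (1 / ε)` for this point `s`.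
-/

set_option autoImplicit false

namespace Pool.Agent.Results.MP_2b9663_nt.AllTwistsTogether

open NumberField IsDedekindDomain Filter Topology Polynomial
open Pool.Agent.W353.EH (size HasOrder)
open Pool.Agent.W353.AT (IsArtin)
open Pool.Agent.H2N.TL (IsPowerAt)

/-- Let `(χ_k, τ_k)` be finitely many different pairs.
* (1) If `|∑ c_r t ^ r| ≤ b` on `[-N, N]`, then `∑_k (∑_r c_r x_{r,k}(ε))² ≤ b² + η` for all `η > 0` and all
  small `ε > 0`, with `x_{r,k}(ε) = log |L(H^{⊗ r} ⊗ χ_k, s_{r,k} + ε)| / log (1 / ε)` (no continuation is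
  assumed), and `∑_k (∑_r c_r m_{r,k})² ≤ b²` for the orders `m_{r,k}` at `s_{r,k}`.
* (2) The same with `2 ∑_k` instead of `∑_k`, if all `τ_k` are positive and the characters of the `χ_k` are
  real.
* (3) Let `R` be odd.  If for all `k` and all odd `r` with `3 ≤ r ≤ R` the function `L(H^{⊗ r} ⊗ χ_k, s)` has
  the order `0` at `s_{r,k}`, then `R² ∑ m_k² ≤ N²` for the orders `m_k` of the `L(H ⊗ χ_k, s)` at `s_{1,k}`.
  If, moreover, `N² < 2 R²`, then at most one of the `m_k` is not zero, and it is `1` or `-1`.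
* (4) Let `q ≥ 2` be even and `r ≥ 1`.  If for all `k` and `1 ≤ j ≤ J` the function
  `L(H^{⊗ (r + q j)} ⊗ χ_k, s)` has the order `0` at `s_{r + q j, k}`, then
  `(∑ m_k²) ^ q (⌊q J / r⌋ + 1) ^ (2 r) ≤ N ^ (2 r q)` for the orders `m_k` of the `L(H^{⊗ r} ⊗ χ_k, s)` at
  `s_{r,k}`. -/
theorem result (K : Type) [Field K] [NumberField K] (l d i N : ℕ)
    (X : Set (MvPolynomial (Fin l) (𝓞 K))) (hi : i ≤ 2 * d) (κ : Type) [Fintype κ] (n : κ → ℕ)
    (χ : ∀ k, Representation ℂ Gal(AlgebraicClosure K/K) (Fin (n k) → ℂ)) (τ : κ → ℝ)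
    (hχ : ∀ k, IsArtin (χ k)) (hirr : ∀ k, (χ k).IsIrreducible)
    (hne : ∀ k k', k ≠ k' → τ k = τ k' → IsEmpty ((χ k).Equiv (χ k'))) :
    (∀ (S : Finset ℕ) (c : ℕ → ℝ) (b : ℝ),
      (∀ t : ℝ, |t| ≤ N → |∑ r ∈ S, c r * t ^ r| ≤ b) →
      ∀ B : κ → ℕ → HeightOneSpectrum (𝓞 K) → ℂ[X],
        (∀ k, ∀ r ∈ S, IsPowerAt X d i N r (χ k) (τ k) (B k r)) →
        ((∀ η : ℝ, 0 < η → ∀ᶠ ε : ℝ in 𝓝[>] 0,
            ∑ k, (∑ r ∈ S, c r * size (r * i) (τ k) (B k r) ε) ^ 2 ≤ b ^ 2 + η) ∧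
          ∀ m : κ → ℕ → ℤ, (∀ k, ∀ r ∈ S, HasOrder (r * i) (τ k) (B k r) (m k r)) →
            ∑ k, (∑ r ∈ S, c r * m k r) ^ 2 ≤ b ^ 2) ∧
        ((∀ k, 0 < τ k) → (∀ k g, ((χ k).character g).im = 0) →
          (∀ η : ℝ, 0 < η → ∀ᶠ ε : ℝ in 𝓝[>] 0,
            2 * ∑ k, (∑ r ∈ S, c r * size (r * i) (τ k) (B k r) ε) ^ 2 ≤ b ^ 2 + η) ∧
          ∀ m : κ → ℕ → ℤ, (∀ k, ∀ r ∈ S, HasOrder (r * i) (τ k) (B k r) (m k r)) →
            2 * ∑ k, (∑ r ∈ S, c r * m k r) ^ 2 ≤ b ^ 2)) ∧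
    (∀ R : ℕ, Odd R → ∀ B : κ → ℕ → HeightOneSpectrum (𝓞 K) → ℂ[X],
      (∀ k r, Odd r → r ≤ R → IsPowerAt X d i N r (χ k) (τ k) (B k r)) →
      (∀ k r, Odd r → 3 ≤ r → r ≤ R → HasOrder (r * i) (τ k) (B k r) 0) →
      ∀ m : κ → ℤ, (∀ k, HasOrder (1 * i) (τ k) (B k 1) (m k)) →
        (R : ℤ) ^ 2 * ∑ k, m k ^ 2 ≤ (N : ℤ) ^ 2 ∧
        (N ^ 2 < 2 * R ^ 2 → (∀ k, |m k| ≤ 1) ∧ ∀ k k', k ≠ k' → m k = 0 ∨ m k' = 0)) ∧
    ∀ r q J : ℕ, 1 ≤ r → Even q → 1 ≤ q → ∀ B : κ → ℕ → HeightOneSpectrum (𝓞 K) → ℂ[X],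
      (∀ k, ∀ j ≤ J, IsPowerAt X d i N (r + q * j) (χ k) (τ k) (B k j)) →
      (∀ k j, 1 ≤ j → j ≤ J → HasOrder ((r + q * j) * i) (τ k) (B k j) 0) →
      ∀ m : κ → ℤ, (∀ k, HasOrder (r * i) (τ k) (B k 0) (m k)) →
        (∑ k, m k ^ 2) ^ q * (((q * J / r : ℕ) : ℤ) + 1) ^ (2 * r) ≤ (N : ℤ) ^ (2 * (r * q)) := by
  refine ⟨fun S c b hb B hB => ⟨⟨fun η hη =>
    Pool.Agent.H2N.TJ.joint_size hi χ hχ hirr τ hne S (fun r => r) c hb B hB hη, fun m hm =>
    Pool.Agent.H2N.TJ.joint_order hi χ hχ hirr τ hne S (fun r => r) c hb B hB m hm⟩,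
    fun hτ hreal =>
      Pool.Agent.H2N.TJ.joint_real hi χ hχ hirr τ hne hτ hreal S (fun r => r) c hb B hB⟩,
    fun R hR B hB h0 m hm => ⟨Pool.Agent.H2N.TJ.odd_joint hi χ hχ hirr τ hne hR B hB h0 m hm,
      fun hNR => Pool.Agent.H2N.TJ.odd_one_exception hi χ hχ hirr τ hne hR hNR B hB h0 m hm⟩,
    fun r q J hr hq hq1 B hB h0 m hm =>
      Pool.Agent.H2N.TJ.prog_joint hi χ hχ hirr τ hne hr hq hq1 J B hB h0 m hm⟩

end Pool.Agent.Results.MP_2b9663_nt.AllTwistsTogether
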