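import Pool.Agent.V11291.GS.Edge2
import Pool.Agent.H921R2.TatePole.Dedekind

/-!
# Zeros of L-functions of varieties at the edge of absolute convergence, and Gaussian sums of the Frobenius traces

Let `X` be a projective variety of dimension `d` over a number field `K` (`K = ℚ` in the question), let `i ≥ 0`,
`s₀ = i/2 + 1`, let `S` be a set of primes of `K` (in the main case the primes of good reduction; the other Euler factors
are finitely many), let `α_{v,1}, …, α_{v,N}` be the eigenvalues of the geometric Frobenius on `H^i(X)` for `v ∈ S`, let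
`t(v) = ∑_k α_{v,k}` be its trace, and

`L(s) = ∏_{v ∈ S} ∏_k (1 - α_{v,k} q_v^{-s})⁻¹`, `Re s > s₀`.

For `η > 0` and `T > 0` put

`G_η(T) = (4πT)^{-1/2} ∑_{v ∈ S} t(v) (log q_v) q_v^{-s₀+η} exp(-(log q_v)² / (4T))`.

(1) For every integer `r` the following are equivalent:

(i) `L` has a meromorphic continuation to a neighbourhood of `s₀` with a pole of order exactly `r` at `s₀` (a zero of order
`-r`, if `r < 0`);

(ii) for all sufficiently small `η > 0` and all `ε > 0`: `G_η(T) = r exp(η² T) + O(exp(ε T))`, `T → ∞`;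

(iii) there are `η > 0` and `0 ≤ θ < η²` such that `G_η(T) = r exp(η² T) + O(exp(θ T))`, `T → ∞`.

(2) So `L` has a meromorphic continuation to a neighbourhood of `s₀` with a zero at `s₀` (this is a
counterexample to the question, if `S` is the set of the good primes and the bad Euler factors have no pole at `s₀`; they
have no zero) if and only if for some integer `m ≥ 1`, some `η > 0` and some `0 ≤ θ < η²`
`G_η(T) = -m exp(η² T) + O(exp(θ T))`; and then this holds for all sufficiently small `η` and all `θ > 0`, with the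
same `m`, the order of the zero.

Nothing is assumed on a continuation of `L` to any point outside the half plane of absolute convergence, and the
criterion involves neither the other points of the line `Re s = s₀` nor the prime powers. This is
the analogue for `H^i`, all `i`, of `MP_1f4fc7_nt.PoleFromGaussianSums` (`i = 2`), with the same proof.
-/

set_option autoImplicit false

namespace Pool.Agent.Results.MP_2b9663_nt.EdgeByGaussianSums

open Filter Topology Set NumberField IsDedekindDomain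

variable {K : Type} [Field K] [NumberField K] {n N i : ℕ}

/-- The norm `q_v`. -/
noncomputable def nrm (v : HeightOneSpectrum (𝓞 K)) : ℕ := Ideal.absNorm v.asIdeal

/-- The set `X` of homogeneous polynomials over `𝓞_K` in `n` variables gives a projective variety over
`K`.  For a field `κ` with `q` elements and a homomorphism `𝓞_K → κ` this is `(q - 1)` times the number
of the points of `X` with coordinates in `κ`: the number of the nonzero solutions of the equations. -/
noncomputable def cone (X : Set (MvPolynomial (Fin n) (𝓞 K))) {κ : Type} [Field κ]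
    (φ : 𝓞 K →+* κ) : ℕ :=
  Nat.card {u : Fin n → κ // u ≠ 0 ∧ ∀ f ∈ X, MvPolynomial.eval₂ φ u f = 0}

/-- `α_1, …, α_N` are the eigenvalues of the geometric Frobenius at the prime `v` of `K` on `H^i(X)`,
for a variety `X` of dimension `d`: there are finite multisets `β_k` of complex numbers of absolute
value `q_v^{k/2}`, `k = 0, …, 2d`, with `β_i = {α_1, …, α_N}`, such that for every finite extension
`κ` of the residue field of `v`, of degree `e`, the number of the points of `X` with coordinates in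
`κ` is `∑ (-1)^k ∑_{z ∈ β_k} z^e`.  By the theorem of Deligne such `β_k` exist at almost all primes
if `X` is smooth, with `N` the `i`-th Betti number of `X`; for `k ≤ 2d` they are unique. -/
def IsFrobenius (X : Set (MvPolynomial (Fin n) (𝓞 K))) (d i : ℕ)
    (v : HeightOneSpectrum (𝓞 K)) (α : Fin N → ℂ) : Prop :=
  ∃ β : ℕ → Multiset ℂ, β i = Finset.univ.val.map α ∧
    (∀ k, ∀ z ∈ β k, ‖z‖ = (nrm v : ℝ) ^ ((k : ℝ) / 2)) ∧
    ∀ (κ : Type) [Field κ] [Finite κ] (φ : 𝓞 K →+* κ) (e : ℕ), RingHom.ker φ = v.asIdeal →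
      Nat.card κ = nrm v ^ e →
      (cone X φ : ℂ) = ((nrm v : ℂ) ^ e - 1) *
          ∑ k ∈ Finset.range (2 * d + 1), (-1 : ℂ) ^ k * ((β k).map (fun z => z ^ e)).sum

variable {S : Set (HeightOneSpectrum (𝓞 K))}

/-- The Euler factor `∏_k (1 - α_{v,k} q_v^{-s})⁻¹`. -/
noncomputable def factor (α : S → Fin N → ℂ) (v : S) (s : ℂ) : ℂ :=
  ∏ k, (1 - α v k * (nrm v.1 : ℂ) ^ (-s))⁻¹

/-- The point `s₀ = i/2 + 1`. -/
noncomputable def edge (i : ℕ) : ℝ := (i : ℝ) / 2 + 1

/-- The Euler product `L` has a meromorphic continuation `F` to a neighbourhood of `s₀ = i/2 + 1`, with a pole of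
order exactly `r` at `s₀` (for `r ≤ 0` a zero of order `-r`): `F` is meromorphic at `s₀`, of order `-r`, and for
`Re s > s₀` near `s₀` the value `F(s)` is the value of the Euler product. -/
def HasPole (i : ℕ) (α : S → Fin N → ℂ) (r : ℤ) : Prop :=
  ∃ F : ℂ → ℂ, MeromorphicAt F (edge i : ℂ) ∧ meromorphicOrderAt F (edge i : ℂ) = (-r : ℤ) ∧
    ∃ ρ : ℝ, 0 < ρ ∧ ∀ s : ℂ, edge i < s.re → ‖s - (edge i : ℂ)‖ < ρ →
      HasProd (fun v : S => factor α v s) (F s)

/-- The Euler product `L` has a meromorphic continuation to a neighbourhood of `s₀`, with a zero at `s₀`. -/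
def HasZero (i : ℕ) (α : S → Fin N → ℂ) : Prop := ∃ m : ℕ, 1 ≤ m ∧ HasPole i α (-(m : ℤ))

/-- The Gaussian sum
`G_η(T) = (4πT)^{-1/2} ∑_v t(v) (log q_v) q_v^{-s₀+η} exp(-(log q_v)² / (4T))`, `t(v) = ∑_k α_{v,k}`. -/
noncomputable def gauss (i : ℕ) (α : S → Fin N → ℂ) (η T : ℝ) : ℂ :=
  ((Real.sqrt (4 * Real.pi * T))⁻¹ : ℝ) * ∑' v : S, (∑ k, α v k) *
    (Real.log (nrm v.1) * (nrm v.1 : ℝ) ^ (-edge i + η) *
      Real.exp (-(Real.log (nrm v.1) ^ 2 / (4 * T))) : ℝ)

/-- `G_η(T) = r exp(η² T) + O(exp(θ T))` for `T → ∞`. -/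
def GaussLaw (i : ℕ) (α : S → Fin N → ℂ) (r : ℤ) (η θ : ℝ) : Prop :=
  ∃ C : ℝ, ∀ᶠ T : ℝ in atTop,
    ‖gauss i α η T - r * Real.exp (η ^ 2 * T)‖ ≤ C * Real.exp (θ * T)

open Pool.Agent.V11291.GS
open Pool.Agent.H921R2.TatePole (nm two_le_nm nm_summable)

instance countable_primes : Countable (HeightOneSpectrum (𝓞 K)) := by
  have h1 := (nm_summable (K := K) (x := 2) (by norm_num)).countable_support
  have h2 : Function.support (fun v : HeightOneSpectrum (𝓞 K) => (nm v : ℝ) ^ (-(2 : ℝ))) =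
      Set.univ := by
    ext v
    simp only [Function.mem_support, Set.mem_univ, iff_true]
    have hp2 : (2 : ℝ) ≤ nm v := by exact_mod_cast two_le_nm v
    have : (0 : ℝ) < nm v := by linarith
    positivity
  rwa [h2, Set.countable_univ_iff] at h1

/-- the normalised eigenvalues -/
noncomputable def nev (i : ℕ) (α : S → Fin N → ℂ) (v : S) (k : Fin N) : ℂ :=
  α v k * (((nrm v.1 : ℝ) ^ (-((i : ℝ) / 2)) : ℝ) : ℂ)

theorem nrm_pos (v : HeightOneSpectrum (𝓞 K)) : (0 : ℝ) < nrm v := by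
  have := two_le_nm v
  have h : nm v = nrm v := rfl
  rw [h] at this
  exact_mod_cast (by omega : 0 < nrm v)

theorem up {X : Set (MvPolynomial (Fin n) (𝓞 K))} {d : ℕ} {α : S → Fin N → ℂ}
    (h : ∀ v, IsFrobenius X d i v.1 (α v)) : UP (fun v : S => nrm v.1) (nev i α) where
  two := fun v => two_le_nm v.1
  sum := fun t ht => (nm_summable (K := K) ht).subtype _
  le := fun v k => by
    obtain ⟨β, h1, h2, h3⟩ := h v
    have hq := nrm_pos v.1
    have h4 : ‖α v k‖ = (nrm v.1 : ℝ) ^ ((i : ℝ) / 2) := h2 i (α v k) (by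
      rw [h1, Multiset.mem_map]
      exact ⟨k, Finset.mem_univ_val k, rfl⟩)
    unfold nev
    rw [norm_mul, h4, Complex.norm_real, Real.norm_of_nonneg (by positivity),
      ← Real.rpow_add hq, add_neg_cancel, Real.rpow_zero]

theorem factor_eq (i : ℕ) (α : S → Fin N → ℂ) (v : S) (s : ℂ) :
    factor α v (s + (i : ℂ) / 2) = ∏ k, (1 - nev i α v k * (nrm v.1 : ℂ) ^ (-s))⁻¹ := by
  have hq := nrm_pos v.1
  have h0 : (nrm v.1 : ℂ) ≠ 0 := by exact_mod_cast hq.ne'
  have h1 : (((nrm v.1 : ℝ) ^ (-((i : ℝ) / 2)) : ℝ) : ℂ) = (nrm v.1 : ℂ) ^ (-((i : ℂ) / 2)) := by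
    rw [Complex.ofReal_cpow hq.le]
    push_cast
    rfl
  unfold factor nev
  refine Finset.prod_congr rfl fun k _ => ?_
  rw [h1, show -(s + (i : ℂ) / 2) = -((i : ℂ) / 2) + -s by ring, Complex.cpow_add _ _ h0]
  congr 2
  ring

theorem edge_eq (i : ℕ) : (edge i : ℂ) = 1 + (i : ℂ) / 2 := by
  unfold edge
  push_cast
  ring

theorem half_re (i : ℕ) : ((i : ℂ) / 2).re = (i : ℝ) / 2 := by
  have h : (i : ℂ) / 2 = (((i : ℝ) / 2 : ℝ) : ℂ) := by push_cast; rfl
  rw [h, Complex.ofReal_re]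

theorem hasPole_iff (i : ℕ) (α : S → Fin N → ℂ) (r : ℤ) :
    HasPole i α r ↔ Pole (fun v : S => nrm v.1) (nev i α) r := by
  constructor
  · rintro ⟨F, h1, h2, ρ, h3, h4⟩
    rw [edge_eq] at h1 h2
    refine ⟨fun s => F (s + (i : ℂ) / 2), ?_, ?_, ρ, h3, fun s hs hsρ => ?_⟩
    · rw [meromorphicOrderAt_fun_comp_add_const_eq_meromorphicOrderAt]
      exact h2
    · exact h1.comp_analyticAt (g := fun z : ℂ => z + (i : ℂ) / 2) (by fun_prop)
    · have h5 := h4 (s + (i : ℂ) / 2) (by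
        rw [Complex.add_re, half_re]
        unfold edge
        linarith) (by
        rw [edge_eq, show s + (i : ℂ) / 2 - (1 + (i : ℂ) / 2) = s - 1 by ring]
        exact hsρ)
      simp only [factor_eq] at h5
      exact h5
  · rintro ⟨F, h1, h2, ρ, h3, h4⟩
    have e : 1 + (i : ℂ) / 2 - (i : ℂ) / 2 = 1 := by ring
    unfold HasPole
    rw [edge_eq]
    refine ⟨fun s => F (s - (i : ℂ) / 2), ?_, ?_, ρ, h3, fun s hs hsρ => ?_⟩
    · refine MeromorphicAt.comp_analyticAt (g := fun z : ℂ => z - (i : ℂ) / 2) ?_ (by fun_prop)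
      rw [e]
      exact h2
    · rw [meromorphicOrderAt_fun_comp_sub_const_eq_meromorphicOrderAt, e]
      exact h1
    · have h5 := h4 (s - (i : ℂ) / 2) (by
        rw [Complex.sub_re, half_re]
        unfold edge at hs
        linarith) (by
        rw [show s - (i : ℂ) / 2 - 1 = s - (1 + (i : ℂ) / 2) by ring]
        exact hsρ)
      simp only [← factor_eq, sub_add_cancel] at h5
      exact h5

theorem gauss_eq (i : ℕ) (α : S → Fin N → ℂ) (η T : ℝ) :
    gauss i α η T = G (lx fun v : S => nrm v.1) (lc (fun v : S => nrm v.1) (nev i α) η) T := by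
  unfold gauss G
  rw [← tsum_mul_left]
  refine tsum_congr fun v => ?_
  have hq := nrm_pos v.1
  have h1 : (nrm v.1 : ℝ) ^ (-edge i + η) =
      (nrm v.1 : ℝ) ^ (-1 + η) * (nrm v.1 : ℝ) ^ (-((i : ℝ) / 2)) := by
    rw [← Real.rpow_add hq]
    congr 1
    unfold edge
    ring
  unfold lc lx kr nev
  rw [← Finset.sum_mul, h1]
  push_cast
  field_simp

theorem law_iff' (i : ℕ) (α : S → Fin N → ℂ) (r : ℤ) (η θ : ℝ) :
    GaussLaw i α r η θ ↔ Law (fun v : S => nrm v.1) (nev i α) r η θ := by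
  unfold GaussLaw Law
  simp only [gauss_eq]

/-- **Theorem.** Let `α_{v,k}` be the eigenvalues of Frobenius on `H^i(X)`, `v ∈ S`. The Euler product `L`
converges for `Re s > s₀ = i/2 + 1` and its values are not zero.

(1) For every integer `r` the following are equivalent: `L` has a meromorphic continuation to a neighbourhood of `s₀`
with a pole of order exactly `r` at `s₀`; there is `η₀ > 0` with `G_η(T) = r exp(η² T) + O(exp(ε T))` for all
`0 < η < η₀` and `ε > 0`; there are `η > 0` and `0 ≤ θ < η²` with `G_η(T) = r exp(η² T) + O(exp(θ T))`.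

(2) `L` has a meromorphic continuation to a neighbourhood of `s₀` with a zero at `s₀` if and only if there are an
integer `m ≥ 1`, `η > 0` and `0 ≤ θ < η²` with `G_η(T) = -m exp(η² T) + O(exp(θ T))`. -/
theorem result (X : Set (MvPolynomial (Fin n) (𝓞 K))) (d i : ℕ)
    (α : S → Fin N → ℂ) (h : ∀ v, IsFrobenius X d i v.1 (α v)) :
    (∀ s : ℂ, edge i < s.re → ∃ y : ℂ, y ≠ 0 ∧ HasProd (fun v : S => factor α v s) y) ∧
    (∀ r : ℤ, List.TFAE [
      HasPole i α r,
      ∃ η₀ : ℝ, 0 < η₀ ∧ ∀ η : ℝ, 0 < η → η < η₀ → ∀ ε : ℝ, 0 < ε → GaussLaw i α r η ε,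
      ∃ η θ : ℝ, 0 < η ∧ 0 ≤ θ ∧ θ < η ^ 2 ∧ GaussLaw i α r η θ]) ∧
    (HasZero i α ↔ ∃ (m : ℕ) (η θ : ℝ), 1 ≤ m ∧ 0 < η ∧ 0 ≤ θ ∧ θ < η ^ 2 ∧
      GaussLaw i α (-(m : ℤ)) η θ) := by
  have E := up h
  have key : ∀ r : ℤ, List.TFAE [
      HasPole i α r,
      ∃ η₀ : ℝ, 0 < η₀ ∧ ∀ η : ℝ, 0 < η → η < η₀ → ∀ ε : ℝ, 0 < ε → GaussLaw i α r η ε,
      ∃ η θ : ℝ, 0 < η ∧ 0 ≤ θ ∧ θ < η ^ 2 ∧ GaussLaw i α r η θ] := fun r => by
    rw [hasPole_iff]
    simp only [law_iff']
    exact E.tfae r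
  refine ⟨fun s hs => ?_, key, ?_⟩
  · have h1 := E.hasProd (η := 0) le_rfl (s := s - (i : ℂ) / 2) (by
      rw [Complex.sub_re, half_re]
      unfold edge at hs
      linarith)
    simp only [← factor_eq, sub_add_cancel] at h1
    exact ⟨_, mul_ne_zero (Complex.exp_ne_zero _) (Complex.exp_ne_zero _), h1⟩
  · have e : ∀ m : ℕ, HasPole i α (-(m : ℤ)) ↔ ∃ η θ : ℝ, 0 < η ∧ 0 ≤ θ ∧ θ < η ^ 2 ∧
        GaussLaw i α (-(m : ℤ)) η θ := fun m => (key (-(m : ℤ))).out 0 2
    constructor
    · rintro ⟨m, h1, h2⟩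
      obtain ⟨η, θ, h3, h4, h5, h6⟩ := (e m).1 h2
      exact ⟨m, η, θ, h1, h3, h4, h5, h6⟩
    · rintro ⟨m, η, θ, h1, h3, h4, h5, h6⟩
      exact ⟨m, h1, (e m).2 ⟨η, θ, h3, h4, h5, h6⟩⟩

end Pool.Agent.Results.MP_2b9663_nt.EdgeByGaussianSums
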