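import Pool.Agent.V11288.HS.EdgeX2

/-!
# Zeros at the edge of absolute convergence and the partial Euler products

Let `X` be a projective variety of dimension `d` over a number field `K` (in the problem `K = ℚ`), `i ≤ 2d`, let `S`
be a set of primes of `K` (in the main case the primes of good reduction; the other Euler factors have no zeros
and no poles at the edge), and let `α_{v,1}, …, α_{v,N}` be the eigenvalues of Frobenius on `H^i(X)` for
`v ∈ S`. Let `s₀ = i/2 + 1` and

`L(s) = ∏_{v ∈ S} ∏_j (1 - α_{v,j} q_v^{-s})⁻¹`, `Re s > s₀`,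

`P(Y) = exp ∑_{q_v^k ≤ Y} t_k(v) / (k q_v^{k s₀})`, `t_k(v) = ∑_j α_{v,j}^k`,

the partial Euler product at the point `s₀` over all finite fields with at most `Y` elements. Let `L` have a
continuation of polynomial growth to `Re s > s₀ - η` for some `η > 0`, with at most a pole at `s₀`; nothing is
supposed on its zeros on the line `Re s = s₀`. It is shown:

1. Let `-k` be the order of `L` at `s₀`. Then `(s - s₀)^k L(s) → A > 0` and

`∫_1^∞ (log P(Y) - k (log log Y + γ) - log A)² dY/Y =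
   (1/π) ∫_{-∞}^∞ (log |L(s₀ + it)| + k log |t| - log A)² dt/t² < ∞`.

2. Equivalent are: `L` has no zero at `s₀`; for some `ε > 0` the set of all `Y > 1` with `P(Y) < ε` has finite
   logarithmic measure; for some `ε > 0` the set of all `Y > 1` with `P(Y) ≥ ε` has infinite logarithmic measure.

So there is a dichotomy: either `P(Y) ≥ ε` outside a set of finite logarithmic measure (no zero at `s₀`), or for
every `ε` one has `P(Y) < ε` outside a set of finite logarithmic measure (a zero at `s₀`); to prove that `s₀` is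
not a zero it suffices that the partial Euler products are not small on a set of infinite logarithmic measure.
-/

set_option autoImplicit false

namespace Pool.Agent.Results.MP_2b9663_nt.EdgeDichotomy

open Filter Topology Set NumberField IsDedekindDomain MeasureTheory

variable {K : Type} [Field K] [NumberField K] {n N : ℕ}

/-- The norm `q_v`. -/
noncomputable def nrm (v : HeightOneSpectrum (𝓞 K)) : ℕ := Ideal.absNorm v.asIdeal

/-- The set `X` of homogeneous polynomials over `𝓞_K` in `n` variables gives a projective variety over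
`K`.  For a field `κ` with `q` elements and a homomorphism `𝓞_K → κ` this is `(q - 1)` times the number
of the points of `X` with coordinates in `κ`: the number of the nonzero solutions of the equations. -/
noncomputable def cone (X : Set (MvPolynomial (Fin n) (𝓞 K))) {κ : Type} [Field κ]
    (φ : 𝓞 K →+* κ) : ℕ :=
  Nat.card {u : Fin n → κ // u ≠ 0 ∧ ∀ f ∈ X, MvPolynomial.eval₂ φ u f = 0}

/-- `α_1, …, α_N` are the eigenvalues of the geometric Frobenius at the prime `v` of `K` on `H^i(X)`,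
for a variety `X` of dimension `d`: there are finite multisets `β_k` of complex numbers of absolute
value `q_v^{k/2}`, `k = 0, …, 2d`, with `β_i = {α_1, …, α_N}`, such that for every finite extension
`κ` of the residue field of `v`, of degree `e`, the number of the points of `X` with coordinates in
`κ` is `∑ (-1)^k ∑_{z ∈ β_k} z^e`.  By the theorem of Deligne such `β_k` exist at almost all primes
if `X` is smooth, with `N` the `i`-th Betti number of `X`; for `k ≤ 2d` they are unique. -/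
def IsFrobenius (X : Set (MvPolynomial (Fin n) (𝓞 K))) (d i : ℕ)
    (v : HeightOneSpectrum (𝓞 K)) (α : Fin N → ℂ) : Prop :=
  ∃ β : ℕ → Multiset ℂ, β i = Finset.univ.val.map α ∧
    (∀ k, ∀ z ∈ β k, ‖z‖ = (nrm v : ℝ) ^ ((k : ℝ) / 2)) ∧
    ∀ (κ : Type) [Field κ] [Finite κ] (φ : 𝓞 K →+* κ) (e : ℕ), RingHom.ker φ = v.asIdeal →
      Nat.card κ = nrm v ^ e →
      (cone X φ : ℂ) = ((nrm v : ℂ) ^ e - 1) *
          ∑ k ∈ Finset.range (2 * d + 1), (-1 : ℂ) ^ k * ((β k).map (fun z => z ^ e)).sum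

variable {S : Set (HeightOneSpectrum (𝓞 K))}

/-- The Euler factor `∏_j (1 - α_{v,j} q_v^{-s})⁻¹`. -/
noncomputable def factor (α : S → Fin N → ℂ) (v : S) (s : ℂ) : ℂ :=
  ∏ j, (1 - α v j * (nrm v.1 : ℂ) ^ (-s))⁻¹

/-- The edge `s₀ = i/2 + 1` of the half plane of absolute convergence. -/
noncomputable def edge (i : ℕ) : ℝ := (i : ℝ) / 2 + 1

/-- `log P(Y)`: the sum of `t_k(v) / (k q_v^{k s₀})` over all primes `v ∈ S` and `k ≥ 1` (here
`k = p.2 + 1`) with `q_v^k ≤ Y`; `t_k(v) = ∑_j α_{v,j}^k` is a real number. -/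
noncomputable def logP (i : ℕ) (α : S → Fin N → ℂ) (Y : ℝ) : ℝ :=
  ∑ᶠ (p : S × ℕ) (_ : (nrm p.1.1 : ℝ) ^ (p.2 + 1) ≤ Y),
    (∑ j, α p.1 j ^ (p.2 + 1)).re / (((p.2 : ℝ) + 1) * ((nrm p.1.1 : ℝ) ^ edge i) ^ (p.2 + 1))

/-- The mean square deviation `∫_1^∞ (log P(Y) - r (γ + log log Y) - log A)² dY/Y ∈ [0, ∞]`. -/
noncomputable def meanSquare (i : ℕ) (α : S → Fin N → ℂ) (r A : ℝ) : ENNReal :=
  ∫⁻ Y in Ioi (1 : ℝ), ENNReal.ofReal
    ((logP i α Y - r * (Real.eulerMascheroniConstant + Real.log (Real.log Y)) - Real.log A) ^ 2 / Y)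

/-- `(1/π) ∫_{-∞}^∞ (log |L(s₀ + it)| + r log |t| - log A)² dt/t² ∈ [0, ∞]`. -/
noncomputable def edgeIntegral (i : ℕ) (L : ℂ → ℂ) (r A : ℝ) : ENNReal :=
  ENNReal.ofReal Real.pi⁻¹ * ∫⁻ t : ℝ, ENNReal.ofReal
    ((Real.log ‖L (edge i + t * Complex.I)‖ + r * Real.log |t| - Real.log A) ^ 2 / t ^ 2)

/-- `L` is a continuation of the Euler product slightly beyond the edge: `L(s)` is the Euler product for
`Re s > s₀`, and there are `η > 0`, `k` and a holomorphic function `G` of polynomial growth on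
`Re s > s₀ - η` with `G(s) = (s - s₀)^k L(s)` for `s ≠ s₀`. -/
def Continuation (i : ℕ) (α : S → Fin N → ℂ) (L : ℂ → ℂ) : Prop :=
  (∀ s : ℂ, edge i < s.re → HasProd (fun v : S => factor α v s) (L s)) ∧
  ∃ (η C : ℝ) (k κ : ℕ) (G : ℂ → ℂ), 0 < η ∧ ∀ s : ℂ, edge i - η < s.re →
    DifferentiableAt ℂ G s ∧ ‖G s‖ ≤ C * (1 + ‖s‖) ^ κ ∧ (s ≠ edge i → G s = (s - edge i) ^ k * L s)

/-- The logarithmic measure `∫_U dY/Y` of a set `U` of positive real numbers. -/
noncomputable def logMeasure (U : Set ℝ) : ENNReal := ∫⁻ Y in U, ENNReal.ofReal (1 / Y)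

open Pool.Agent.V11288

/-- **Zeros at the edge and partial Euler products.** -/
theorem result (X : Set (MvPolynomial (Fin n) (𝓞 K))) (d i : ℕ) (hi : i ≤ 2 * d)
    (α : S → Fin N → ℂ) (h : ∀ v, IsFrobenius X d i v.1 (α v)) (L : ℂ → ℂ)
    (hL : Continuation i α L) :
    (∃ (k : ℤ) (A : ℝ), 0 < A ∧ meromorphicOrderAt L (edge i) = (-k : ℤ) ∧
      Tendsto (fun s : ℂ => (s - edge i) ^ k * L s) (𝓝[≠] (edge i : ℂ)) (𝓝 (A : ℂ)) ∧
      meanSquare i α k A < ⊤ ∧ meanSquare i α k A = edgeIntegral i L k A) ∧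
    List.TFAE [
      meromorphicOrderAt L (edge i) ≤ 0,
      ∃ ε : ℝ, 0 < ε ∧ logMeasure {Y : ℝ | 1 < Y ∧ Real.exp (logP i α Y) < ε} < ⊤,
      ∃ ε : ℝ, 0 < ε ∧ logMeasure {Y : ℝ | 1 < Y ∧ ε ≤ Real.exp (logP i α Y)} = ⊤] := by
  have hP : HS.EX.Pure i α := HS.EX.pure_of_frobenius hi h
  obtain ⟨k, A, hA, h1, h2, h3, h4⟩ := HS.EX.exists_order hP hL
  have h1' : meromorphicOrderAt L (edge i) = (-k : ℤ) := h1
  refine ⟨⟨k, A, hA, h1, h3, h2, (HS.EX.main' hP hL k hA).2 h2⟩, ?_⟩
  have h5 : meromorphicOrderAt L (edge i) ≤ 0 ↔ 0 ≤ k := by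
    rw [h1']
    have e : ((0 : ℤ) : WithTop ℤ) = 0 := rfl
    rw [← e, WithTop.coe_le_coe]
    omega
  rw [h5]
  exact HS.EX.dichotomy h4

end Pool.Agent.Results.MP_2b9663_nt.EdgeDichotomy
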