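import Pool.Agent.V1213.TP.Main

/-!
# Zeros at the edge propagate to infinitely many tensor powers

`X` is a smooth projective variety over a number field `K`, for example over `K = ℚ`, `H = H^i(X)`, of dimension `N`,
and `χ` an Artin representation of `K`, of dimension `n`. The tensor power `H^{⊗ r}` is a part of `H^{ri}(X^r)`; the
edge of `L(H^{⊗ r} ⊗ χ, s)` is the point `r i / 2 + 1`. For `K = ℚ`, `r = 1` and `χ = 1` it is the point `s₀` of the
problem. Nothing is assumed about the automorphy of `H`. The definitions are in `Pool.Agent.Y139.SM.GDefs`,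
`Pool.Agent.W353.AT.Defs`, `Pool.Agent.W353.EH.Defs` and `Pool.Agent.W353.EF.Defs`: `IsPowerSystem X d i N r χ B`: the
`B v` are the Euler factors of `L(H^{⊗ r} ⊗ χ, s)` (arbitrary nonvanishing ones at finitely many primes); `LFun B`: the
Euler product; `HasOrder (r i) 0 B k`: it has a meromorphic continuation to a neighbourhood of the edge, of order `k`
there; `size (r i) 0 B ε`: `log |L(edge + ε)| / log (1 / ε)`.

If `L(X, s)` vanishes at `s₀`, then, for every even `q`, infinitely many of the functions `L(H^{⊗ (1 + q j)}, s)` have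
a zero or a pole at their edges, or no continuation.
-/

set_option autoImplicit false

namespace Pool.Agent.Results.MP_2b9663_nt.EdgeZerosPropagate

open NumberField IsDedekindDomain Filter Topology Polynomial
open Pool.Agent.W353.EF (LFun)
open Pool.Agent.W353.EH (edgePoint size HasOrder)
open Pool.Agent.W353.AT (IsArtin)
open Pool.Agent.Y139.SM (IsPowerSystem)

/-- * (1) (moments) If `L(H^{⊗ r}, s)` has the order `k r` at its edge for `1 ≤ r ≤ R`, then `1, -k 1, ..., -k R` satisfy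
  all the inequalities for the moments of a probability measure on `[-N, N]`: `P 0 - ∑ P r k r ≥ 0` for every real
  polynomial `∑ P r t ^ r` of degree at most `R` which is nonnegative on `[-N, N]`.
* (2) Let `q ≥ 2` be even and `r ≥ 1`. If the order `k` of `L(H^{⊗ r} ⊗ χ, s)` at its edge is not zero, then for
  infinitely many `j ≥ 1` the function `L(H^{⊗ (r + q j)} ⊗ χ, s)` does not have the order `0` at its edge.
* (3) Effective form: if `(n N ^ r) ^ q < (⌊q m / r⌋ + 1) ^ r` and `L(H^{⊗ (r + q j)} ⊗ χ, s)` has the order `0` at its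
  edge for `1 ≤ j ≤ m`, then the order of `L(H^{⊗ r} ⊗ χ, s)` at its edge, if it exists, is `0`.
* (4) The inequality behind (2), (3), without any continuation, and the nonvanishing of the Euler products.
* (5) If `R > n N` is odd and `L(H^{⊗ r} ⊗ χ, s)` has the order `0` at its edge for all odd `r` with `3 ≤ r ≤ R`, then
  the order of `L(H ⊗ χ, s)` at its edge, if it exists, is `0`. -/
theorem result (K : Type) [Field K] [NumberField K] (l d i N : ℕ)
    (X : Set (MvPolynomial (Fin l) (𝓞 K))) (hi : i ≤ 2 * d) :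
    (∀ (R : ℕ) (B : ℕ → HeightOneSpectrum (𝓞 K) → ℂ[X]) (k : ℕ → ℤ),
      (∀ r, 1 ≤ r → r ≤ R → IsPowerSystem X d i N r
        (1 : Representation ℂ Gal(AlgebraicClosure K/K) (Fin 1 → ℂ)) (B r) ∧
        HasOrder (r * i) 0 (B r) (k r)) →
      ∀ P : ℝ[X], P.natDegree ≤ R → (∀ t : ℝ, |t| ≤ N → 0 ≤ P.eval t) →
        0 ≤ P.coeff 0 - ∑ r ∈ Finset.Icc 1 R, P.coeff r * k r) ∧
    ∀ (n : ℕ) (χ : Representation ℂ Gal(AlgebraicClosure K/K) (Fin n → ℂ)), IsArtin χ →
      (∀ q r : ℕ, Even q → 1 ≤ q → 1 ≤ r → ∀ B : ℕ → HeightOneSpectrum (𝓞 K) → ℂ[X],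
        (∀ j, IsPowerSystem X d i N (r + q * j) χ (B j)) →
        (∀ k : ℤ, HasOrder (r * i) 0 (B 0) k → k ≠ 0 →
          {j : ℕ | 1 ≤ j ∧ ¬ HasOrder ((r + q * j) * i) 0 (B j) 0}.Infinite) ∧
        (∀ m : ℕ, (n * N ^ r) ^ q < (q * m / r + 1) ^ r →
          (∀ j, 1 ≤ j → j ≤ m → HasOrder ((r + q * j) * i) 0 (B j) 0) →
          ∀ k : ℤ, HasOrder (r * i) 0 (B 0) k → k = 0) ∧
        (∀ j, ∀ᶠ ε : ℝ in 𝓝[>] 0, LFun (B j) (edgePoint ((r + q * j) * i) 0 + ε) ≠ 0) ∧
        (1 ≤ N → ∀ (m : ℕ) (η : ℝ), 0 < η → ∀ᶠ ε : ℝ in 𝓝[>] 0,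
          |∑ j ∈ Finset.range (m + 1), ((-1) ^ j * (m.choose j : ℝ) / (N : ℝ) ^ (q * j)) *
            size ((r + q * j) * i) 0 (B j) ε| ^ q ≤
            (n * (N : ℝ) ^ r) ^ q / ((q * m / r : ℕ) + 1 : ℝ) ^ r + η)) ∧
      (∀ R : ℕ, Odd R → n * N < R → ∀ B : ℕ → HeightOneSpectrum (𝓞 K) → ℂ[X],
        (∀ r, Odd r → r ≤ R → IsPowerSystem X d i N r χ (B r)) →
        (∀ r, Odd r → 3 ≤ r → r ≤ R → HasOrder (r * i) 0 (B r) 0) →
        ∀ k : ℤ, HasOrder (1 * i) 0 (B 1) k → k = 0) := by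
  refine ⟨fun R B k hBk P hP hpos => Pool.Agent.V1213.TP.moments hi R B (fun r h1 h2 => (hBk r h1 h2).1) k
    (fun r h1 h2 => (hBk r h1 h2).2) P hP hpos, fun n χ hχ => ⟨fun q r hq hq1 hr B hB =>
    ⟨fun k hk hk0 => Pool.Agent.V1213.TP.prog_infinite hi χ hχ hr hq hq1 B hB k hk0 hk,
      fun m hm h0 k hk => Pool.Agent.V1213.TP.prog_zero hi χ hχ hr hq hq1 B m hm (fun j _ => hB j) h0 k hk,
      fun j => ?_, fun hN m η hη => Pool.Agent.V1213.TP.prog_size hi χ hχ hq hq1 hN B m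
        (fun j _ => hB j) hη⟩, fun R hR hlt B hB h0 k hk =>
      (Pool.Agent.Y139.SM.oddPowers hi χ hχ hR B hB).2.2 hlt h0 k hk⟩⟩
  choose σ hσ using Pool.Agent.W540.BE.exists_isFrob (F := K)
  exact (Pool.Agent.Y139.SM.power_size hi hσ (r + q * j) χ hχ (B j) (hB j)).1

end Pool.Agent.Results.MP_2b9663_nt.EdgeZerosPropagate
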